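import Pool.Agent.H917Z.GW.Prob

/-!
# Continuum many fixed points between the global and the partial extinction vectors

The definitions are in `Pool.Agent.H917Z.GW.Defs`.  Irreducibility is not needed.
-/

set_option autoImplicit false

open Cardinal

namespace Pool.Agent.Results.MP_34b196_pr.Continuum

open Pool.Agent.H917Z.GW

universe u

/-- For a multitype Galton-Watson process with countably many types and `q < q̃`, the set of fixed
points `s ∈ [0,1]^X` of the generating function with `q ≤ s ≤ q̃` has the cardinality of the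
continuum. -/
theorem result {X : Type u} [Countable X] [MeasurableSpace (X →₀ ℕ)]
    [MeasurableSingletonClass (X →₀ ℕ)] (μ : X → PMF (X →₀ ℕ))
    (hle : q μ ≤ qt μ) (hne : q μ ≠ qt μ) :
    Cardinal.mk {s : X → ℝ // (∀ x, 0 ≤ s x ∧ s x ≤ 1) ∧ G μ s = s ∧ q μ ≤ s ∧ s ≤ qt μ} =
      Cardinal.continuum := by
  obtain ⟨x, hx⟩ := Function.ne_iff.1 hne
  have hlt : q μ x < qt μ x := lt_of_le_of_ne (hle x) hx
  apply le_antisymm
  · refine (Cardinal.mk_subtype_le _).trans ?_
    rw [Cardinal.mk_arrow, Cardinal.mk_real, Cardinal.lift_continuum, Cardinal.lift_uzero]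
    refine (Cardinal.power_le_power_left Cardinal.continuum_ne_zero Cardinal.mk_le_aleph0).trans ?_
    rw [Cardinal.continuum_power_aleph0]
  · choose f hf using fun c : Set.Icc (q μ x) (qt μ x) => exists_fixed μ x c.2.1 c.2.2
    let g : Set.Icc (q μ x) (qt μ x) →
        {s : X → ℝ // (∀ x, 0 ≤ s x ∧ s x ≤ 1) ∧ G μ s = s ∧ q μ ≤ s ∧ s ≤ qt μ} :=
      fun c => ⟨f c, (hf c).1, (hf c).2.1, (hf c).2.2.1, (hf c).2.2.2.1⟩
    have hg : Function.Injective g := by
      intro a b hab
      have h1 : f a = f b := congrArg Subtype.val hab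
      apply Subtype.ext
      rw [← (hf a).2.2.2.2, ← (hf b).2.2.2.2, h1]
    have := Cardinal.lift_mk_le_lift_mk_of_injective hg
    rwa [Cardinal.mk_Icc_real hlt, Cardinal.lift_continuum, Cardinal.lift_uzero] at this

end Pool.Agent.Results.MP_34b196_pr.Continuum
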